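import Pool.Agent.Helper97.Fuchs.Base

/-!
# Stationary measures are singular to conformal measures when the entropy is small
-/

namespace Pool.Agent.Helper97.Fuchs

open MeasureTheory Matrix UpperHalfPlane Filter Topology
open scoped MatrixGroups ENNReal BigOperators

noncomputable section

namespace Sing

variable {ι : Type} [Fintype ι]

/-- probability of the group element of a letter -/
def lq (w : ι → ℝ) (A : ι → SL(2, ℝ)) (i : ι) : ℝ := open Classical in ∑ i' with A i' = A i, w i'

lemma lq_pos {w : ι → ℝ} {A : ι → SL(2, ℝ)} (hw : IsWt w) (i : ι) : 0 < lq w A i := by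
  classical
  unfold lq
  exact lt_of_lt_of_le (hw.pos i)
    (Finset.single_le_sum (f := w) (fun j _ => hw.nonneg j) (by simp))

lemma lq_le_one {w : ι → ℝ} {A : ι → SL(2, ℝ)} (hw : IsWt w) (i : ι) : lq w A i ≤ 1 := by
  classical
  unfold lq
  rw [← hw.sum]
  exact Finset.sum_le_sum_of_subset_of_nonneg (Finset.filter_subset _ _)
    (fun j _ _ => hw.nonneg j)

/-- information of a letter -/
def inf (w : ι → ℝ) (A : ι → SL(2, ℝ)) (i : ι) : ℝ := -Real.log (lq w A i)

lemma Hs_eq (w : ι → ℝ) (A : ι → SL(2, ℝ)) : Hs w A = ∑ i, w i * inf w A i := by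
  unfold Hs inf lq
  refine Finset.sum_congr rfl fun i _ => ?_
  congr!

/-- typical words -/
def Typ (w : ι → ℝ) (A : ι → SL(2, ℝ)) (h : ℝ) (n : ℕ) : Set (Fin n → ι) :=
  {u | ∑ k, inf w A (u k) ≤ n * h}

/-- Chernoff bound for the atypical words -/
lemma chernoff (w : ι → ℝ) (A : ι → SL(2, ℝ)) (hw : IsWt w) {h : ℝ} (hent : Hs w A < h) :
    ∃ ρ : ℝ, 0 ≤ ρ ∧ ρ < 1 ∧ ∀ n : ℕ,
      Ex w n (fun u => open Classical in if u ∈ Typ w A h n then 0 else 1) ≤ ρ ^ n := by
  classical
  have hne : Nonempty ι := by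
    by_contra hc
    rw [not_nonempty_iff] at hc
    have := hw.sum
    simp at this
  -- bound for the information
  obtain ⟨b, hb1, hb⟩ : ∃ b : ℝ, 1 ≤ b ∧ ∀ i, |inf w A i - h| ≤ b := by
    obtain ⟨b, hb⟩ := (Set.finite_range fun i => |inf w A i - h|).bddAbove
    exact ⟨max b 1, le_max_right _ _, fun i => le_trans (hb ⟨i, rfl⟩) (le_max_left _ _)⟩
  set g : ℝ := h - Hs w A with hg
  have hgpos : 0 < g := by rw [hg]; linarith
  have hgb : g ≤ b := by
    have h1 : -g = ∑ i, w i * (inf w A i - h) := by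
      rw [hg, Hs_eq]
      simp only [mul_sub, Finset.sum_sub_distrib, ← Finset.sum_mul, hw.sum]
      ring
    have h2 : |∑ i, w i * (inf w A i - h)| ≤ b := by
      calc |∑ i, w i * (inf w A i - h)| ≤ ∑ i, |w i * (inf w A i - h)| :=
            Finset.abs_sum_le_sum_abs _ _
        _ ≤ ∑ i, w i * b := by
            refine Finset.sum_le_sum fun i _ => ?_
            rw [abs_mul, abs_of_nonneg (hw.nonneg i)]
            exact mul_le_mul_of_nonneg_left (hb i) (hw.nonneg i)
        _ = b := by rw [← Finset.sum_mul, hw.sum, one_mul]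
    rw [← h1, abs_neg] at h2
    exact le_trans (le_abs_self _) h2
  -- the parameter
  set θ : ℝ := g / (2 * b ^ 2) with hθ
  have hbpos : 0 < b := by linarith
  have hθpos : 0 < θ := by positivity
  have hθb : θ * b ≤ 1 := by
    rw [hθ, div_mul_eq_mul_div, div_le_one (by positivity)]
    nlinarith
  set ρ : ℝ := ∑ i, w i * Real.exp (θ * (inf w A i - h)) with hρ
  have hρ0 : 0 ≤ ρ := Finset.sum_nonneg fun i _ => mul_nonneg (hw.nonneg i) (Real.exp_pos _).le
  have hρ1 : ρ < 1 := by
    have h1 : ρ ≤ ∑ i, w i * (1 + θ * (inf w A i - h) + (θ * b) ^ 2) := by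
      refine Finset.sum_le_sum fun i _ => mul_le_mul_of_nonneg_left ?_ (hw.nonneg i)
      have h2 : |θ * (inf w A i - h)| ≤ θ * b := by
        rw [abs_mul, abs_of_pos hθpos]
        exact mul_le_mul_of_nonneg_left (hb i) hθpos.le
      have h3 := Real.abs_exp_sub_one_sub_id_le (h2.trans hθb)
      have h4 := (abs_le.1 h3).2
      have h5 : (θ * (inf w A i - h)) ^ 2 ≤ (θ * b) ^ 2 := sq_le_sq' (abs_le.1 h2).1 (abs_le.1 h2).2
      linarith
    have h2 : ∑ i, w i * (1 + θ * (inf w A i - h) + (θ * b) ^ 2) = 1 - θ * g + (θ * b) ^ 2 := by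
      have h3 : ∑ i, w i * (1 + θ * (inf w A i - h) + (θ * b) ^ 2) =
          (1 - θ * h + (θ * b) ^ 2) * ∑ i, w i + θ * ∑ i, w i * inf w A i := by
        rw [Finset.mul_sum, Finset.mul_sum, ← Finset.sum_add_distrib]
        exact Finset.sum_congr rfl fun i _ => by ring
      rw [h3, hw.sum, ← Hs_eq, hg]
      ring
    rw [h2] at h1
    have h3 : (θ * b) ^ 2 = θ * (g / 2) := by
      rw [hθ]; field_simp
    rw [h3] at h1
    nlinarith [mul_pos hθpos hgpos]
  refine ⟨ρ, hρ0, hρ1, fun n => ?_⟩
  have h1 : Ex w n (fun u => if u ∈ Typ w A h n then (0 : ℝ) else 1) ≤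
      Ex w n (fun u => ∏ k, Real.exp (θ * (inf w A (u k) - h))) := by
    refine Ex_mono (fun i => hw.nonneg i) fun u => ?_
    split_ifs with hu
    · exact Finset.prod_nonneg fun _ _ => (Real.exp_pos _).le
    · rw [← Real.exp_sum]
      apply Real.one_le_exp
      rw [← Finset.mul_sum]
      refine mul_nonneg hθpos.le ?_
      rw [Finset.sum_sub_distrib]
      simp only [Finset.sum_const, Finset.card_univ, Fintype.card_fin, nsmul_eq_mul]
      have : ¬ (∑ k, inf w A (u k) ≤ n * h) := hu
      linarith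
  refine h1.trans (le_of_eq ?_)
  unfold Ex wt
  rw [hρ, Fintype.sum_pow]
  refine Finset.sum_congr rfl fun u _ => ?_
  rw [← Finset.prod_mul_distrib]

/-- the products of typical words -/
def TT (w : ι → ℝ) (A : ι → SL(2, ℝ)) (h : ℝ) (n : ℕ) : Set SL(2, ℝ) :=
  (fun u : Fin n → ι => word A u) '' Typ w A h n

lemma finite_TT (w : ι → ℝ) (A : ι → SL(2, ℝ)) (h : ℝ) (n : ℕ) : (TT w A h n).Finite :=
  (Set.toFinite _).image _

/-- counting products of typical words -/
lemma card_TT (w : ι → ℝ) (A : ι → SL(2, ℝ)) (hw : IsWt w) (h : ℝ) (n : ℕ) :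
    (((finite_TT w A h n).toFinset.card : ℕ) : ℝ) ≤ Real.exp (n * h) := by
  classical
  -- the sequences of group elements
  let Q : Finset (Fin n → SL(2, ℝ)) :=
    (Finset.univ.filter fun u : Fin n → ι => u ∈ Typ w A h n).image fun u k => A (u k)
  have h1 : (finite_TT w A h n).toFinset ⊆ Q.image fun v => (List.ofFn v).prod := by
    intro g hg
    rw [Set.Finite.mem_toFinset] at hg
    obtain ⟨u, hu, rfl⟩ := hg
    rw [Finset.mem_image]
    refine ⟨fun k => A (u k), ?_, rfl⟩
    exact Finset.mem_image.2 ⟨u, by simpa using hu, rfl⟩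
  have h2 : ((finite_TT w A h n).toFinset.card : ℝ) ≤ Q.card := by
    exact_mod_cast (Finset.card_le_card h1).trans Finset.card_image_le
  -- probability of each sequence
  have h3 : ∀ v ∈ Q, Real.exp (-(n * h)) ≤
      ∑ u : Fin n → ι with (fun k => A (u k)) = v, wt w u := by
    intro v hv
    rw [Finset.mem_image] at hv
    obtain ⟨u, hu, rfl⟩ := hv
    have hu' : u ∈ Typ w A h n := by simpa using hu
    have h4 : ∑ u' : Fin n → ι with (fun k => A (u' k)) = (fun k => A (u k)), wt w u' =
        ∏ k, lq w A (u k) := by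
      unfold lq wt
      rw [Finset.prod_univ_sum]
      apply Finset.sum_congr
      · ext u'
        simp only [Finset.mem_filter, Finset.mem_univ, true_and, Fintype.mem_piFinset]
        exact funext_iff
      · intro _ _; rfl
    rw [h4]
    have h5 : ∏ k, lq w A (u k) = Real.exp (-(∑ k, inf w A (u k))) := by
      rw [← Finset.sum_neg_distrib, Real.exp_sum]
      refine Finset.prod_congr rfl fun k _ => ?_
      rw [inf, neg_neg, Real.exp_log (lq_pos hw _)]
    rw [h5]
    apply Real.exp_le_exp.2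
    have : ∑ k, inf w A (u k) ≤ n * h := hu'
    linarith
  have h6 : (Q.card : ℝ) * Real.exp (-(n * h)) ≤ 1 := by
    calc (Q.card : ℝ) * Real.exp (-(n * h)) = ∑ v ∈ Q, Real.exp (-(n * h)) := by simp
      _ ≤ ∑ v ∈ Q, ∑ u : Fin n → ι with (fun k => A (u k)) = v, wt w u :=
          Finset.sum_le_sum h3
      _ ≤ ∑ u : Fin n → ι, wt w u := by
          rw [← Finset.sum_biUnion]
          · exact Finset.sum_le_sum_of_subset_of_nonneg (Finset.subset_univ _)
              (fun u _ _ => wt_nonneg (fun i => hw.nonneg i) u)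
          · intro v _ v' _ hvv
            rw [Function.onFun, Finset.disjoint_left]
            intro u hu hu'
            simp only [Finset.mem_filter, Finset.mem_univ, true_and] at hu hu'
            exact hvv (hu.symm.trans hu')
      _ = 1 := sum_wt hw.sum n
  refine h2.trans ?_
  have h7 : Real.exp (-(n * h)) = (Real.exp (n * h))⁻¹ := Real.exp_neg _
  rw [h7, mul_inv_le_iff₀ (Real.exp_pos _), one_mul] at h6
  exact h6

/-- iterated negative moments -/
lemma neg_iter {w : ι → ℝ} {A : ι → SL(2, ℝ)} (hw : ∀ i, 0 ≤ w i) {K : ℕ} {s c : ℝ} (hc : 0 ≤ c)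
    (hneg : ∀ z : ℂ, z ≠ 0 → (avg w A)^[K] (fun z => ‖z‖ ^ (-s)) z ≤ c * ‖z‖ ^ (-s)) (j : ℕ) :
    ∀ z : ℂ, z ≠ 0 → (avg w A)^[K * j] (fun z => ‖z‖ ^ (-s)) z ≤ c ^ j * ‖z‖ ^ (-s) := by
  induction j with
  | zero => simp
  | succ j ih =>
    intro z hz
    rw [Nat.mul_succ, Function.iterate_add_apply]
    refine (avg_iter_mono hw A hneg (K * j) z hz).trans ?_
    rw [avg_iter_smul]
    calc c * (avg w A)^[K * j] (fun z => ‖z‖ ^ (-s)) z ≤ c * (c ^ j * ‖z‖ ^ (-s)) :=
          mul_le_mul_of_nonneg_left (ih z hz) hc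
      _ = c ^ (j + 1) * ‖z‖ ^ (-s) := by ring

lemma stat_iter {w : ι → ℝ} {A : ι → SL(2, ℝ)} (hw : ∀ i, 0 ≤ w i) {ν : Measure S1}
    (hν : (∑ i, ENNReal.ofReal (w i) • ν.map (bmap (A i))) = ν) (n : ℕ) :
    ∀ E : Set S1, MeasurableSet E →
      ∑ u : Fin n → ι, ENNReal.ofReal (wt w u) * ν (bmap (word A u) ⁻¹' E) = ν E := by
  induction n with
  | zero =>
    intro E _
    rw [Fintype.sum_unique]
    simp only [wt_zero, word_zero, ENNReal.ofReal_one, one_mul]
    congr 1
    ext ζ
    simp [bmap_one]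
  | succ n ih =>
    intro E hE
    rw [← (Fin.consEquiv (fun _ : Fin (n + 1) => ι)).sum_comp, Fintype.sum_prod_type]
    have h1 : ∀ i : ι, ∑ u : Fin n → ι,
        ENNReal.ofReal (wt w ((Fin.consEquiv (fun _ : Fin (n + 1) => ι)) (i, u))) *
          ν (bmap (word A ((Fin.consEquiv (fun _ : Fin (n + 1) => ι)) (i, u))) ⁻¹' E) =
        ENNReal.ofReal (w i) * ν (bmap (A i) ⁻¹' E) := by
      intro i
      rw [← ih _ ((measurable_bmap (A i)) hE), Finset.mul_sum]
      refine Finset.sum_congr rfl fun u _ => ?_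
      have h2 : wt w ((Fin.consEquiv (fun _ : Fin (n + 1) => ι)) (i, u)) = w i * wt w u := by
        rw [wt_succ]; simp [Fin.consEquiv]
      have h3 : word A ((Fin.consEquiv (fun _ : Fin (n + 1) => ι)) (i, u)) = A i * word A u :=
        word_cons A i u
      rw [h2, h3, ENNReal.ofReal_mul (hw i), mul_assoc]
      congr 3
      ext ζ
      simp [bmap_mul]
    rw [Finset.sum_congr rfl fun i _ => h1 i]
    conv_rhs => rw [← hν]
    rw [Measure.finsetSum_apply]
    refine Finset.sum_congr rfl fun i _ => ?_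
    rw [Measure.smul_apply, Measure.map_apply (measurable_bmap _) hE, smul_eq_mul]

/-- the exceptional sets -/
def EE (g : SL(2, ℝ)) (c : ℝ) : Set S1 := {ζ | bjac g ζ ≤ c}

lemma measurable_EE (g : SL(2, ℝ)) (c : ℝ) : MeasurableSet (EE g c) :=
  measurableSet_le (continuous_bjac g).measurable measurable_const

lemma isClosed_EE (g : SL(2, ℝ)) (c : ℝ) : IsClosed (EE g c) :=
  isClosed_le (continuous_bjac g) continuous_const

lemma measurable_image (g : SL(2, ℝ)) (c : ℝ) : MeasurableSet (bmap g '' EE g c) :=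
  ((isClosed_EE g c).isCompact.image (continuous_bmap g)).isClosed.measurableSet

theorem core (w : ι → ℝ) (A : ι → SL(2, ℝ)) (hw : IsWt w) {K : ℕ} (hK : 1 ≤ K)
    {s t h δ : ℝ} (hs : 0 < s)
    (hneg : ∀ z : ℂ, z ≠ 0 → (avg w A)^[K] (fun z => ‖z‖ ^ (-s)) z
        ≤ Real.exp (-(s * t * K)) * ‖z‖ ^ (-s))
    (hent : Hs w A < h) (hδ : 0 ≤ δ) (hlt : h < 2 * δ * t)
    {ν κ : Measure S1} (hν : BStat w A ν) [IsFiniteMeasure κ]
    (hκ : ∀ g ∈ grp A, ∀ E : Set S1, MeasurableSet E →
      κ (bmap g '' E) = ∫⁻ ζ in E, ENNReal.ofReal (bjac g ζ ^ δ) ∂κ) :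
    ν ⟂ₘ κ := by
  classical
  have hw0 : ∀ i, 0 ≤ w i := fun i => hw.nonneg i
  obtain ⟨hν1, hν2⟩ := hν
  -- choice of t'
  obtain ⟨t', ht't, ht'⟩ : ∃ t' : ℝ, t' < t ∧ h < 2 * δ * t' := by
    rcases hδ.eq_or_lt with h0 | h0
    · refine ⟨t - 1, by linarith, ?_⟩
      rw [← h0] at hlt ⊢
      simpa using hlt
    · have h1 : h / (2 * δ) < t := by
        rw [div_lt_iff₀ (by positivity)]; linarith
      obtain ⟨t', h2, h3⟩ := exists_between h1
      refine ⟨t', h3, ?_⟩
      rw [div_lt_iff₀ (by positivity)] at h2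
      linarith
  obtain ⟨ρ, hρ0, hρ1, hρ⟩ := chernoff w A hw hent
  -- the sets
  let c : ℕ → ℝ := fun n => Real.exp (-(2 * t' * n))
  let B : ℕ → Set S1 := fun j => ⋃ g ∈ (finite_TT w A h (K * j)).toFinset,
    bmap g '' EE g (c (K * j))
  have hBm : ∀ j, MeasurableSet (B j) := fun j =>
    Finset.measurableSet_biUnion _ fun g _ => measurable_image g _
  -- the conformal measure of the sets
  set M : ℝ := (κ Set.univ).toReal with hM
  have hM0 : 0 ≤ M := ENNReal.toReal_nonneg
  have hMκ : κ Set.univ = ENNReal.ofReal M := (ENNReal.ofReal_toReal (measure_ne_top κ _)).symm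
  have hκB : ∀ j, κ (B j) ≤
      ENNReal.ofReal (Real.exp (-((2 * δ * t' - h) * K)) ^ j * M) := by
    intro j
    calc κ (B j) ≤ ∑ g ∈ (finite_TT w A h (K * j)).toFinset, κ (bmap g '' EE g (c (K * j))) :=
          measure_biUnion_finset_le _ _
      _ ≤ ∑ g ∈ (finite_TT w A h (K * j)).toFinset,
            ENNReal.ofReal (Real.exp (-(2 * δ * t' * (K * j : ℕ))) * M) := by
          refine Finset.sum_le_sum fun g hg => ?_
          have hg' : g ∈ grp A := by
            rw [Set.Finite.mem_toFinset] at hg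
            obtain ⟨u, _, rfl⟩ := hg
            exact word_mem_grp A u
          rw [hκ g hg' _ (measurable_EE g _)]
          have h1 : ∀ ζ ∈ EE g (c (K * j)), ENNReal.ofReal (bjac g ζ ^ δ) ≤
              ENNReal.ofReal (Real.exp (-(2 * δ * t' * (K * j : ℕ)))) := by
            intro ζ hζ
            apply ENNReal.ofReal_le_ofReal
            have h2 : bjac g ζ ≤ c (K * j) := hζ
            calc bjac g ζ ^ δ ≤ (c (K * j)) ^ δ :=
                  Real.rpow_le_rpow (bjac_pos g ζ).le h2 hδ
              _ = Real.exp (-(2 * δ * t' * (K * j : ℕ))) := by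
                  show (Real.exp (-(2 * t' * (K * j : ℕ)))) ^ δ = _
                  rw [← Real.exp_mul]
                  congr 1
                  ring
          calc ∫⁻ ζ in EE g (c (K * j)), ENNReal.ofReal (bjac g ζ ^ δ) ∂κ
              ≤ ∫⁻ ζ in EE g (c (K * j)), ENNReal.ofReal (Real.exp (-(2 * δ * t' * (K * j : ℕ)))) ∂κ :=
                setLIntegral_mono measurable_const h1
            _ = ENNReal.ofReal (Real.exp (-(2 * δ * t' * (K * j : ℕ)))) * κ (EE g (c (K * j))) := by
                rw [setLIntegral_const]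
            _ ≤ ENNReal.ofReal (Real.exp (-(2 * δ * t' * (K * j : ℕ)))) * κ Set.univ := by
                gcongr; exact Set.subset_univ _
            _ = _ := by rw [hMκ, ← ENNReal.ofReal_mul (Real.exp_pos _).le]
      _ = ((finite_TT w A h (K * j)).toFinset.card : ℝ≥0∞) *
            ENNReal.ofReal (Real.exp (-(2 * δ * t' * (K * j : ℕ))) * M) := by
          rw [Finset.sum_const, nsmul_eq_mul]
      _ ≤ ENNReal.ofReal (Real.exp ((K * j : ℕ) * h)) *
            ENNReal.ofReal (Real.exp (-(2 * δ * t' * (K * j : ℕ))) * M) := by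
          gcongr
          rw [← ENNReal.ofReal_natCast]
          exact ENNReal.ofReal_le_ofReal (card_TT w A hw h (K * j))
      _ = _ := by
          rw [← ENNReal.ofReal_mul (Real.exp_pos _).le, ← mul_assoc, ← Real.exp_add,
            ← Real.exp_nat_mul]
          congr 3
          push_cast
          ring
  -- the stationary measure of the complements
  have hνB : ∀ j, ν (B j)ᶜ ≤
      ENNReal.ofReal ((ρ ^ K) ^ j + Real.exp (-(s * (t - t') * K)) ^ j) := by
    intro j
    set n := K * j with hn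
    have key : ∀ ζ : S1, ∑ u : Fin n → ι, ENNReal.ofReal (wt w u) *
        (if c n < bjac (word A u) ζ then 1 else 0) ≤
          ENNReal.ofReal (Real.exp (-(s * (t - t') * K)) ^ j) := by
      intro ζ
      obtain ⟨z, rfl⟩ := bpt_surjective ζ
      have h1 : ∑ u : Fin n → ι, ENNReal.ofReal (wt w u) *
          (if c n < bjac (word A u) (bpt z) then 1 else 0) ≤
          ENNReal.ofReal (Ex w n fun u => Real.exp (s * t' * n) *
            ‖lin (word A u) (z : ℂ)‖ ^ (-s)) := by
        unfold Ex
        rw [ENNReal.ofReal_sum_of_nonneg]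
        · refine Finset.sum_le_sum fun u _ => ?_
          split_ifs with hu
          · rw [mul_one]
            apply ENNReal.ofReal_le_ofReal
            have hpos : 0 < ‖lin (word A u) (z : ℂ)‖ := by
              rw [norm_pos_iff]; exact lin_ne_zero (S1_ne_zero z)
            have h2 : ‖lin (word A u) (z : ℂ)‖ < Real.exp (t' * n) := by
              rw [bjac_bpt] at hu
              have h3 : Real.exp (-(2 * t' * n)) * ‖lin (word A u) (z : ℂ)‖ ^ 2 < 1 := by
                have : c n = Real.exp (-(2 * t' * n)) := rfl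
                rw [this, lt_div_iff₀ (by positivity)] at hu
                exact hu
              have h4 : Real.exp (-(2 * t' * n)) = (Real.exp (t' * n) ^ 2)⁻¹ := by
                rw [← Real.exp_nat_mul, ← Real.exp_neg]
                congr 1
                push_cast
                ring
              rw [h4, inv_mul_lt_iff₀ (by positivity), mul_one] at h3
              exact lt_of_pow_lt_pow_left₀ 2 (Real.exp_pos _).le h3
            have h5 : 1 ≤ Real.exp (s * t' * n) * ‖lin (word A u) (z : ℂ)‖ ^ (-s) := by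
              have h6 : (Real.exp (t' * n)) ^ (-s) ≤ ‖lin (word A u) (z : ℂ)‖ ^ (-s) :=
                Real.rpow_le_rpow_of_nonpos hpos h2.le (by linarith)
              calc (1 : ℝ) = Real.exp (s * t' * n) * (Real.exp (t' * n)) ^ (-s) := by
                    rw [← Real.exp_mul, ← Real.exp_add]
                    rw [show s * t' * n + t' * n * -s = 0 by ring, Real.exp_zero]
                _ ≤ _ := mul_le_mul_of_nonneg_left h6 (Real.exp_pos _).le
            calc wt w u = wt w u * 1 := (mul_one _).symm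
              _ ≤ _ := mul_le_mul_of_nonneg_left h5 (wt_nonneg hw0 u)
          · simp
        · intro u _
          refine mul_nonneg (wt_nonneg hw0 u) ?_
          positivity
      refine h1.trans (ENNReal.ofReal_le_ofReal ?_)
      rw [Ex_mul_left]
      rw [Ex_iter w A (fun z => ‖z‖ ^ (-s)) n (z : ℂ)]
      have h2 := neg_iter hw0 (Real.exp_pos _).le hneg j (z : ℂ) (S1_ne_zero z)
      rw [S1_norm, Real.one_rpow, mul_one] at h2
      calc Real.exp (s * t' * n) * (avg w A)^[n] (fun z => ‖z‖ ^ (-s)) (z : ℂ)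
          ≤ Real.exp (s * t' * n) * Real.exp (-(s * t * K)) ^ j :=
            mul_le_mul_of_nonneg_left h2 (Real.exp_pos _).le
        _ = Real.exp (-(s * (t - t') * K)) ^ j := by
            rw [← Real.exp_nat_mul, ← Real.exp_nat_mul, ← Real.exp_add]
            congr 1
            rw [hn]
            push_cast
            ring
    have h1 := stat_iter hw0 hν2 n (B j)ᶜ (hBm j).compl
    rw [← h1]
    have h2 : ∀ u : Fin n → ι, ENNReal.ofReal (wt w u) * ν (bmap (word A u) ⁻¹' (B j)ᶜ) ≤
        ENNReal.ofReal (wt w u * (if u ∈ Typ w A h n then 0 else 1)) +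
        ∫⁻ ζ, ENNReal.ofReal (wt w u) * (if c n < bjac (word A u) ζ then 1 else 0) ∂ν := by
      intro u
      by_cases hu : u ∈ Typ w A h n
      · rw [if_pos hu, mul_zero, ENNReal.ofReal_zero, zero_add]
        have hms : MeasurableSet {ζ : S1 | c n < bjac (word A u) ζ} :=
          measurableSet_lt measurable_const (continuous_bjac _).measurable
        rw [lintegral_const_mul]
        · gcongr
          have h3 : (fun ζ : S1 => (if c n < bjac (word A u) ζ then (1 : ℝ≥0∞) else 0)) =
              Set.indicator {ζ : S1 | c n < bjac (word A u) ζ} 1 := by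
            funext ζ
            simp [Set.indicator_apply]
          rw [h3, lintegral_indicator_one hms]
          apply measure_mono
          intro ζ hζ
          by_contra hc
          rw [Set.mem_ofPred_eq, not_lt] at hc
          apply hζ
          show bmap (word A u) ζ ∈ B j
          refine Set.mem_biUnion (x := word A u) ?_ ⟨ζ, hc, rfl⟩
          rw [Finset.mem_coe, Set.Finite.mem_toFinset]
          exact ⟨u, hu, rfl⟩
        · exact Measurable.ite hms measurable_const measurable_const
      · rw [if_neg hu, mul_one]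
        refine le_trans ?_ le_self_add
        calc ENNReal.ofReal (wt w u) * ν (bmap (word A u) ⁻¹' (B j)ᶜ)
            ≤ ENNReal.ofReal (wt w u) * 1 := by gcongr; exact prob_le_one
          _ = _ := mul_one _
    refine (Finset.sum_le_sum fun u _ => h2 u).trans ?_
    rw [Finset.sum_add_distrib, ← lintegral_finsetSum, ENNReal.ofReal_add]
    · gcongr ?_ + ?_
      · rw [← ENNReal.ofReal_sum_of_nonneg]
        · apply ENNReal.ofReal_le_ofReal
          rw [← pow_mul, ← hn]
          exact hρ n
        · intro u _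
          refine mul_nonneg (wt_nonneg hw0 u) ?_
          split_ifs <;> norm_num
      · calc ∫⁻ ζ, ∑ u : Fin n → ι, ENNReal.ofReal (wt w u) *
              (if c n < bjac (word A u) ζ then 1 else 0) ∂ν
            ≤ ∫⁻ ζ, ENNReal.ofReal (Real.exp (-(s * (t - t') * K)) ^ j) ∂ν := lintegral_mono key
          _ = _ := by rw [lintegral_const, measure_univ, mul_one]
    · positivity
    · positivity
    · intro u _
      refine Measurable.const_mul ?_ _
      exact Measurable.ite (measurableSet_lt measurable_const (continuous_bjac _).measurable)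
        measurable_const measurable_const
  have hKpos : (0 : ℝ) < K := by exact_mod_cast hK
  -- Borel–Cantelli
  refine Measure.MutuallySingular.mk (s := (limsup B atTop)ᶜ) (t := limsup B atTop) ?_ ?_ ?_
  · -- ν
    have hlim : Tendsto (fun j : ℕ => ENNReal.ofReal ((ρ ^ K) ^ j +
        Real.exp (-(s * (t - t') * K)) ^ j)) atTop (𝓝 0) := by
      have h1 : Tendsto (fun j : ℕ => (ρ ^ K) ^ j + Real.exp (-(s * (t - t') * K)) ^ j) atTop
          (𝓝 (0 + 0)) := by
        refine Tendsto.add ?_ ?_
        · apply tendsto_pow_atTop_nhds_zero_of_lt_one (pow_nonneg hρ0 _)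
          exact pow_lt_one₀ hρ0 hρ1 (by omega)
        · apply tendsto_pow_atTop_nhds_zero_of_lt_one (Real.exp_pos _).le
          rw [Real.exp_lt_one_iff]
          have : 0 < s * (t - t') * K := mul_pos (mul_pos hs (by linarith)) hKpos
          linarith
      have h2 := ENNReal.tendsto_ofReal h1
      simpa using h2
    rw [Filter.limsup_eq_iInf_iSup_of_nat]
    simp only [Set.iSup_eq_iUnion, Set.iInf_eq_iInter, Set.compl_iInter, Set.compl_iUnion]
    rw [measure_iUnion_null_iff]
    intro m
    apply le_antisymm _ bot_le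
    refine ge_of_tendsto' (x := atTop) (f := fun j : ℕ => ENNReal.ofReal ((ρ ^ K) ^ (j + m) +
        Real.exp (-(s * (t - t') * K)) ^ (j + m))) ((tendsto_add_atTop_iff_nat m).2 hlim) ?_
    intro j
    refine le_trans (measure_mono ?_) (hνB (j + m))
    intro ζ hζ
    simp only [Set.mem_iInter] at hζ
    exact hζ (j + m) (by simp)
  · -- κ
    apply measure_limsup_atTop_eq_zero
    refine ne_top_of_le_ne_top ?_ (ENNReal.tsum_le_tsum hκB)
    rw [← ENNReal.ofReal_tsum_of_nonneg]
    · exact ENNReal.ofReal_ne_top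
    · intro j; positivity
    · apply Summable.mul_right
      apply summable_geometric_of_lt_one (Real.exp_pos _).le
      rw [Real.exp_lt_one_iff]
      have : 0 < (2 * δ * t' - h) * K := mul_pos (by linarith) hKpos
      linarith
  · rw [Set.compl_union_self]

end Sing

variable {ι : Type} [Fintype ι]

theorem singular_of (w : ι → ℝ) (A : ι → SL(2, ℝ)) (hw : IsWt w) {K K' : ℕ} (hK : 1 ≤ K)
    (hK' : 1 ≤ K') {s t h δ : ℝ} (hs : 0 < s)
    (hneg : ∀ z : ℂ, z ≠ 0 → (avg w A)^[K] (fun z => ‖z‖ ^ (-s)) z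
        ≤ Real.exp (-(s * t * K)) * ‖z‖ ^ (-s))
    (hent' : HW w A K' < h * K') (hδ : 0 ≤ δ) (hlt : h < 2 * δ * t)
    {ν κ : Measure S1} (hν : BStat w A ν) [IsFiniteMeasure κ]
    (hκ : ∀ g ∈ grp A, ∀ E : Set S1, MeasurableSet E →
      κ (bmap g '' E) = ∫⁻ ζ in E, ENNReal.ofReal (bjac g ζ ^ δ) ∂κ) :
    ν ⟂ₘ κ := by
  have hw0 : ∀ i, 0 ≤ w i := fun i => hw.nonneg i
  have hK'pos : (0 : ℝ) < K' := by exact_mod_cast hK'
  let w' : (Fin K' → ι) → ℝ := fun u => wt w u
  let A' : (Fin K' → ι) → SL(2, ℝ) := fun u => word A u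
  have hw' : IsWt w' := ⟨fun u => wt_pos hw u, sum_wt hw.sum K'⟩
  have havg : avg w' A' = (avg w A)^[K'] := by
    funext f z
    exact Ex_iter w A f K' z
  have hgrp : grp A' ≤ grp A := by
    unfold grp
    rw [Subgroup.closure_le]
    rintro g (⟨u, rfl⟩ | hg)
    · exact word_mem_grp A u
    · exact Subgroup.subset_closure (Or.inr hg)
  refine Sing.core w' A' hw' (K := K) (s := s) (t := t * K') (h := h * K') (δ := δ) hK hs ?_
    hent' hδ ?_ ⟨hν.1, ?_⟩ (fun g hg => hκ g (hgrp hg))
  · intro z hz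
    rw [havg, ← Function.iterate_mul, mul_comm K' K]
    have h1 := Sing.neg_iter hw0 (Real.exp_pos _).le hneg K' z hz
    refine h1.trans (le_of_eq ?_)
    rw [← Real.exp_nat_mul]
    congr 2
    ring
  · have := mul_lt_mul_of_pos_right hlt hK'pos
    linarith
  · apply Measure.ext
    intro E hE
    rw [← Sing.stat_iter hw0 hν.2 K' E hE, Measure.finsetSum_apply]
    refine Finset.sum_congr rfl fun u _ => ?_
    rw [Measure.smul_apply, Measure.map_apply (measurable_bmap _) hE, smul_eq_mul]

end

end Pool.Agent.Helper97.Fuchs
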